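import Pool.Agent.H93.GS.Main

/-!
# Graph series of Koenig-Egervary graphs are not modular

Let `Γ` be a finite simple graph with vertex set `Fin r` and at least one edge.  Suppose that

* `Γ` is bipartite, or, more generally, `Γ` has an independent set `S` whose complement is matched
  into `S` (there is an injective map `b` from the complement of `S` to `S` with `a` adjacent to
  `b a` for all `a`); these are the Koenig-Egervary graphs;
* every vertex outside a maximum independent set `I` has at least two neighbours in `I` (that is, no
  two maximum independent sets differ by the exchange of one vertex).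

Then `q ^ a * H_Γ(q)`, `q = exp (2 π i τ)`, is not a weakly holomorphic modular form, for any real
number `a`, any real weight `k`, any finite index subgroup of `SL(2, ℤ)` and any unitary multiplier.

The proof: for a set `S` as above the function `G = (q)_∞ ^ |S| * H_Γ` is a series over the
functions from the complement of `S` to `ℕ` (Euler's identity).  It grows at most polynomially at
the roots of unity, so that the modular form `q ^ (a + |S| / 24) * G` has no pole at a cusp; on the
real interval `(0, 1)` it lies between `1` and a constant, so that its weight is `0`.  Hence it is a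
constant, but `G > 1` on `(0, 1)`, and `G` tends to `1` at `0`.
-/

namespace Pool.Agent.Results.MP_b63d87_nt.KonigEgervary

open UpperHalfPlane H93GS

/-- The graph series of a bipartite or, more generally, Koenig-Egervary graph with an edge, in which
every vertex outside a maximum independent set has at least two neighbours in it, is not a weakly
holomorphic modular form after multiplication by any real power of `q`. -/
theorem result {r : ℕ} (Γ : SimpleGraph (Fin r)) [DecidableRel Γ.Adj]
    -- the graph has an edge
    (hE : ∃ i j, Γ.Adj i j)
    -- it is bipartite or Koenig-Egervary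
    (hΓ : Γ.Colorable 2 ∨ ∃ (S : Finset (Fin r)) (b : Fin r → Fin r),
      (∀ i ∈ S, ∀ j ∈ S, ¬ Γ.Adj i j) ∧
      (∀ a, a ∉ S → b a ∈ S ∧ Γ.Adj a (b a)) ∧
      ∀ a a', a ∉ S → a' ∉ S → b a = b a' → a = a')
    -- every vertex outside a maximum independent set has at least two neighbours in it
    (h2 : ∀ I : Finset (Fin r), (∀ i ∈ I, ∀ j ∈ I, ¬ Γ.Adj i j) →
      (∀ J : Finset (Fin r), (∀ i ∈ J, ∀ j ∈ J, ¬ Γ.Adj i j) → J.card ≤ I.card) →
      ∀ v, v ∉ I → 2 ≤ (I.filter (Γ.Adj v)).card)
    (a k : ℝ) :
    ¬ IsModularForm k fun τ : ℍ => Complex.exp (2 * Real.pi * Complex.I * a * (τ : ℂ)) *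
      graphSeries Γ (Complex.exp (2 * Real.pi * Complex.I * (τ : ℂ))) := by
  rcases hΓ with h | h
  · exact main_bip Γ hE h h2 a k
  · exact main_KE Γ hE h h2 a k

end Pool.Agent.Results.MP_b63d87_nt.KonigEgervary
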