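import Pool.Agent.H93.KW.Main

/-!
# The only possible weight of the graph series of a Koenig-Egervary graph

Let `Γ` be a finite Koenig-Egervary graph: it has an independent set `S` and an injection `b` of the
complement into `S` with `a` adjacent to `b a` (`KE`; every bipartite graph is one, but odd cycles
are allowed). A function `x` with values in `{0, 1, 2}` is half-flat (`HalfFlat`) at the maximum
independent set `S` if it is `2` on `S`, every vertex `v` outside `S` with `x v ≠ 0` has at most one
neighbour in `S`, and `x v + x w ≤ 2` for adjacent `v`, `w` outside `S`. If `q ^ a * H_Γ(q)` is a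
weakly holomorphic modular form of weight `k` (real `a` and `k`, a finite index subgroup, a unitary
multiplier) then `k = M / 2 - (3 / 2) * α`, where `α` is the independence number and `M` is the
largest sum of a half-flat function. For bipartite graphs `M / 2` is the largest size of a flat set
(`Flat`): a set which contains a maximum independent set and in which no vertex has two neighbours.

The proof: `G = (q)_∞ ^ α * H_Γ` grows for `q → 1` at least like `(1 - q) ^ (-w)` and at most like
`(1 - q) ^ (-w - ε)` for every positive `ε`, where `w = M / 2 - α` (a half-integral rounding), and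
`q ^ (a + α / 24) * G` would be a modular form of weight `k + α / 2`; look at the cusp `0`.
-/

set_option autoImplicit false

namespace Pool.Agent.Results.MP_b63d87_nt.KonigEgervaryWeight

open UpperHalfPlane H93GS Pool.Agent.H25.GW Pool.Agent.H93.KW

/-- The weight of a modular graph series: Koenig-Egervary graphs and half-flat functions; bipartite
graphs and flat sets. -/
theorem result :
    -- Koenig-Egervary graphs
    (∀ (r : ℕ) (Γ : SimpleGraph (Fin r)) [DecidableRel Γ.Adj], KE Γ →
      -- a half-flat function with the largest sum
      ∀ (S : Finset (Fin r)) (x : Fin r → ℕ), HalfFlat Γ S x →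
      (∀ (S' : Finset (Fin r)) (y : Fin r → ℕ), HalfFlat Γ S' y → ∑ v, y v ≤ ∑ v, x v) →
      ∀ a k : ℝ,
      (IsModularForm k fun τ : ℍ => Complex.exp (2 * Real.pi * Complex.I * a * (τ : ℂ)) *
        graphSeries Γ (Complex.exp (2 * Real.pi * Complex.I * (τ : ℂ)))) →
      k = ((∑ v, x v : ℕ) : ℝ) / 2 - 3 / 2 * S.card) ∧
    -- bipartite graphs
    (∀ (r : ℕ) (Γ : SimpleGraph (Fin r)) [DecidableRel Γ.Adj], Γ.Colorable 2 →
      -- a maximum independent set and a flat set of the largest size
      ∀ S R : Finset (Fin r), MaxIndep Γ S → Flat Γ R →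
      (∀ R' : Finset (Fin r), Flat Γ R' → R'.card ≤ R.card) →
      ∀ a k : ℝ,
      (IsModularForm k fun τ : ℍ => Complex.exp (2 * Real.pi * Complex.I * a * (τ : ℂ)) *
        graphSeries Γ (Complex.exp (2 * Real.pi * Complex.I * (τ : ℂ)))) →
      k = R.card - 3 / 2 * S.card) :=
  ⟨fun _ Γ _ hΓ S x hx hmax a k hf => Pool.Agent.H93.KW.weight Γ hΓ S x hx hmax a k hf,
    fun _ Γ _ hΓ S R hS hR hmax a k hf => Pool.Agent.H25.GW.weight Γ hΓ S R hS hR hmax a k hf⟩

end Pool.Agent.Results.MP_b63d87_nt.KonigEgervaryWeight
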