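import Pool.Agent.H25.PP.PFin

/-!
# Graph series of graphs with pendant paths of length two

Let `Γ` be a finite simple graph with an independent set `S` and an injection `b` from the
complement of `S` into `S` such that `a` is adjacent to `b a`. Let `P` be a nonempty set of vertices
outside `S`, and `c` a vertex outside `S` and `P`, such that every `p ∈ P` starts a pendant path
`c - p - b p` (the neighbours of `p` are `c` and `b p`, and `b p` is a leaf). If some `s₀ ∈ S`,
which is not a value of `b`, is adjacent to all the vertices outside `S` and `P`, then
`q ^ a * H_Γ(q)` is not a weakly holomorphic modular form, for any real number `a`, any real weight,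
any finite index subgroup and any unitary multiplier.

In other words: take any graph `Γ₀` with an independent set `S₀` and a vertex `s₀ ∈ S₀` which is
adjacent to all the vertices outside `S₀`, such that the vertices outside `S₀` can be matched into
`S₀ - {s₀}`; choose a vertex `c` outside `S₀` and attach `w ≥ 1` pendant paths `c - p - q` at `c`.
The resulting graph `Γ` (with `S = S₀` and the `w` vertices `q`, and `P` = the vertices `p`) has
a graph series which is not modular. Examples are `D_5`, `E_7` and all the spiders with
at least two legs of length one and at least one leg of length two, no leg being longer. The graph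
may have edges between the vertices outside `S`, so that it need not be bipartite.

The proof: for a modular `q ^ a * H_Γ` the cusps `1 / N` are equivalent to `i ∞` for the multiples
`N` of some level, which gives the leading asymptotics of `G = (q)_∞ ^ |S| * H_Γ` at
`q = exp (2 π i / N - h)` for `h → 0` from `H_Γ(0) = 1`. The direct evaluation of the same limit
gives a rational function of `N` which is not compatible with this for `N = M` and `N = 2 M`.
-/

set_option autoImplicit false

namespace Pool.Agent.Results.MP_b63d87_nt.PendantPaths

open UpperHalfPlane H93GS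

/-- The graph series of a graph with pendant paths of length two, which are attached at one vertex
of a graph with the independent set and the matching described below, is not modular. -/
theorem result {r : ℕ} (Γ : SimpleGraph (Fin r)) [DecidableRel Γ.Adj]
    -- an independent set `S` and a matching `b` of its complement into `S`
    (S : Finset (Fin r)) (hS : ∀ i ∈ S, ∀ j ∈ S, ¬ Γ.Adj i j)
    (b : Fin r → Fin r) (hb : ∀ a, a ∉ S → b a ∈ S ∧ Γ.Adj a (b a))
    (hbi : ∀ a a', a ∉ S → a' ∉ S → b a = b a' → a = a')
    -- a nonempty set `P` of vertices outside `S` and a vertex `c` outside `S` and `P`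
    (P : Finset (Fin r)) (hP : P.Nonempty) (hPS : ∀ p ∈ P, p ∉ S)
    (c : Fin r) (hcS : c ∉ S) (hcP : c ∉ P)
    -- the neighbours of `p ∈ P` are `c` and `b p`, and `b p` is a leaf
    (hPadj : ∀ p ∈ P, ∀ v, Γ.Adj p v ↔ v = c ∨ v = b p)
    (hleaf : ∀ p ∈ P, ∀ v, Γ.Adj (b p) v → v = p)
    -- a vertex `s₀` in `S`, not a value of `b`, adjacent to all the vertices outside `S` and `P`
    (s₀ : Fin r) (hs₀ : s₀ ∈ S) (hs₀b : ∀ a, a ∉ S → b a ≠ s₀)
    (hs₀a : ∀ a, a ∉ S → a ∉ P → Γ.Adj a s₀)
    (a k : ℝ) :
    ¬ IsModularForm k fun τ : ℍ => Complex.exp (2 * Real.pi * Complex.I * a * (τ : ℂ)) *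
      graphSeries Γ (Complex.exp (2 * Real.pi * Complex.I * (τ : ℂ))) :=
  Pool.Agent.H25.PP.pendant Γ S hS b hb hbi P hP hPS c hcS hcP hPadj hleaf s₀ hs₀ hs₀b hs₀a a k

end Pool.Agent.Results.MP_b63d87_nt.PendantPaths
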