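import Pool.Agent.H93.KW.Main

/-!
# Koenig-Egervary graphs with two optimal half-flat functions

Let `Γ` be a finite Koenig-Egervary graph: it has an independent set `S` and an injection `b` of the
complement into `S` with `a` adjacent to `b a` (`KE`; every bipartite graph is one, but odd cycles
are allowed). A function `x` with values in `{0, 1, 2}` is half-flat (`HalfFlat`) at the maximum
independent set `S` if it is `2` on `S`, every vertex `v` outside `S` with `x v ≠ 0` has at most one
neighbour in `S`, and `x v + x w ≤ 2` for adjacent `v`, `w` outside `S`. If two different functions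
are half-flat at one maximum independent set and both have the largest sum of all half-flat
functions, then `q ^ a * H_Γ(q)` is not a weakly holomorphic modular form, for any real number `a`,
any real weight, any finite index subgroup and any unitary multiplier. The second part is the same
statement for bipartite graphs and flat sets.

The proof: `G = (q)_∞ ^ α * H_Γ` is a series over the functions from the complement of `S` to `ℕ`.
If `2 α + 2 w` is the largest sum of a half-flat function then `G` grows for `q → 1` at most like
`(1 - q) ^ (-w - ε)` for every positive `ε` (a half-integral rounding argument). If `q ^ a * H_Γ` is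
modular then the behaviour at the cusp `0` is `G = (κ + o(1)) * (1 - q) ^ (-w)`. Two optimal
half-flat functions at one `S` give the additional factor `log (1 / (1 - q))`, a contradiction.
-/

set_option autoImplicit false

namespace Pool.Agent.Results.MP_b63d87_nt.TwoHalfFlat

open UpperHalfPlane H93GS Pool.Agent.H25.GW Pool.Agent.H93.KW

/-- The graph series of a Koenig-Egervary graph, in which some maximum independent set has two
different half-flat functions of the largest sum, is not modular; the graph series of a bipartite
graph, in which some maximum independent set is contained in two different flat sets of the largest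
size, is not modular. -/
theorem result :
    -- Koenig-Egervary graphs
    (∀ (r : ℕ) (Γ : SimpleGraph (Fin r)) [DecidableRel Γ.Adj], KE Γ →
      -- two different half-flat functions at `S` with the largest sum
      ∀ (S : Finset (Fin r)) (x y : Fin r → ℕ), HalfFlat Γ S x → HalfFlat Γ S y → x ≠ y →
      ∑ v, x v = ∑ v, y v →
      (∀ (S' : Finset (Fin r)) (z : Fin r → ℕ), HalfFlat Γ S' z → ∑ v, z v ≤ ∑ v, x v) →
      ∀ a k : ℝ,
      ¬ IsModularForm k fun τ : ℍ => Complex.exp (2 * Real.pi * Complex.I * a * (τ : ℂ)) *
        graphSeries Γ (Complex.exp (2 * Real.pi * Complex.I * (τ : ℂ)))) ∧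
    -- bipartite graphs
    (∀ (r : ℕ) (Γ : SimpleGraph (Fin r)) [DecidableRel Γ.Adj], Γ.Colorable 2 →
      -- a maximum independent set and two different flat sets which contain it
      ∀ S R₁ R₂ : Finset (Fin r), MaxIndep Γ S → S ⊆ R₁ → S ⊆ R₂ → Flat Γ R₁ → Flat Γ R₂ →
      R₁ ≠ R₂ →
      -- the two flat sets have the largest size among all flat sets
      R₁.card = R₂.card → (∀ R : Finset (Fin r), Flat Γ R → R.card ≤ R₁.card) →
      ∀ a k : ℝ,
      ¬ IsModularForm k fun τ : ℍ => Complex.exp (2 * Real.pi * Complex.I * a * (τ : ℂ)) *
        graphSeries Γ (Complex.exp (2 * Real.pi * Complex.I * (τ : ℂ)))) :=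
  ⟨fun _ Γ _ hΓ S x y hx hy hne hc hmax a k =>
      Pool.Agent.H93.KW.two_half Γ hΓ S x y hx hy hne hc hmax a k,
    fun _ Γ _ hΓ S R₁ R₂ hS h₁ h₂ hR₁ hR₂ hne hc hmax a k =>
      Pool.Agent.H25.GW.two_flat Γ hΓ S R₁ R₂ hS h₁ h₂ hR₁ hR₂ hne hc hmax a k⟩

end Pool.Agent.Results.MP_b63d87_nt.TwoHalfFlat
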